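import Mathlib
import Pool.Agent.H28.Shearer

set_option autoImplicit false

namespace Pool.Agent.Results.MP_cf191d_co.Strict

open Finset SimpleGraph Classical

lemma half {α : Type} (U : Finset α) (P B : Finset (Finset α)) (hP : ∀ x ∈ P, x ⊆ U)
    (h : ∀ x ∈ P, ∀ y ∈ P, (x ∩ y).Nonempty) (hB : ∀ b ∈ B, b ⊆ U ∧ b ∉ P ∧ U \ b ∉ P) :
    2 * P.card + B.card ≤ 2 ^ U.card := by
  have h1 : (P.image (U \ ·)).card = P.card := card_image_of_injOn fun x hx y hy e => by
    rw [← Finset.sdiff_sdiff_eq_self (hP x hx), ← Finset.sdiff_sdiff_eq_self (hP y hy)]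
    exact congrArg (U \ ·) e
  have h2 : Disjoint P (P.image (U \ ·)) := disjoint_left.2 fun x hx hx' => by
    obtain ⟨y, hy, rfl⟩ := mem_image.1 hx'
    obtain ⟨e, he⟩ := h _ hx y hy
    simp at he
  have h3 : Disjoint (P ∪ P.image (U \ ·)) B := disjoint_right.2 fun x hx hx' => by
    rcases mem_union.1 hx' with h4 | h4
    · exact (hB x hx).2.1 h4
    obtain ⟨y, hy, rfl⟩ := mem_image.1 h4
    exact (hB _ hx).2.2 (by rwa [Finset.sdiff_sdiff_eq_self (hP y hy)])
  rw [two_mul, ← card_powerset]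
  nth_rewrite 2 [← h1]
  rw [← card_union_of_disjoint h2, ← card_union_of_disjoint h3]
  refine card_le_card fun x hx => mem_powerset.2 ?_
  rcases mem_union.1 hx with h4 | h4
  · rcases mem_union.1 h4 with h5 | h5
    · exact hP x h5
    · obtain ⟨y, -, rfl⟩ := mem_image.1 h5
      exact sdiff_subset
  · exact (hB x h4).1

lemma strict {α : Type} (U : Finset α) (P : Finset (Finset α)) (hP : ∀ x ∈ P, x ⊆ U)
    (h : ∀ x ∈ P, ∀ y ∈ P, 2 ≤ (x ∩ y).card) (hn : P.Nonempty) : 2 * P.card < 2 ^ U.card := by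
  obtain ⟨A, hA, hm⟩ := exists_min_image P card hn
  obtain ⟨e, he⟩ : A.Nonempty := card_pos.1 (by have := h A hA A hA; rw [inter_self] at this; omega)
  have := half U P {A.erase e} hP (fun x hx y hy => card_pos.1 (by have := h x hx y hy; omega))
    fun b hb => by
      rw [mem_singleton.1 hb]
      refine ⟨(erase_subset _ _).trans (hP A hA), fun h1 => ?_, fun h1 => ?_⟩
      · exact (card_erase_lt_of_mem he).not_ge (hm _ h1)
      · have h2 : U \ A.erase e ∩ A ⊆ {e} := fun x hx => by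
          simp only [mem_inter, mem_sdiff, mem_erase, mem_singleton] at hx ⊢
          tauto
        have := (h _ h1 A hA).trans (card_le_card h2)
        simp at this
  simpa [Nat.succ_le_iff] using this

lemma count {n t : ℕ} {a b : Fin n} (hab : a ≠ b) :
    (univ.filter fun c : Fin n → Fin t => c a = c b).card * t = t ^ n := by
  have : ((univ.filter fun c : Fin n → Fin t => c a = c b) ×ˢ (univ : Finset (Fin t))).card =
      (univ : Finset (Fin n → Fin t)).card :=
    card_nbij' (fun p => Function.update p.1 b p.2) (fun c => (Function.update c b (c a), c b))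
      (by simp [Set.MapsTo]) (fun c _ => by simp [hab]) (fun p hp => by
        have : p.1 a = p.1 b := by simpa using hp
        simp [hab, this]) (fun c _ => by simp)
  simpa using this

/-- For `H` with at least two edges, the bound `(*)` is never attained. -/
theorem result (W : Type) [Fintype W] (H : SimpleGraph W) (h2 : 2 ≤ H.edgeSet.ncard) (χ : ℕ)
    (hχ : H.chromaticNumber = χ) (n : ℕ) (𝒢 : Finset (SimpleGraph (Fin n)))
    (h : ∀ G₁ ∈ 𝒢, ∀ G₂ ∈ 𝒢, H ⊑ G₁ ⊓ G₂) :
    (𝒢.card : ℝ) < 2 ^ ((n.choose 2 : ℤ) - (χ - 1)) := by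
  rcases 𝒢.eq_empty_or_nonempty with rfl | hn
  · simpa using zpow_pos two_pos _
  obtain ⟨u, v, huv⟩ : ∃ u v, H.Adj u v := by
    obtain ⟨⟨u, v⟩, he⟩ := Set.nonempty_of_ncard_ne_zero (s := H.edgeSet) (by omega)
    exact ⟨u, v, he⟩
  obtain ⟨t, rfl⟩ : ∃ t, χ = t + 2 := Nat.exists_eq_add_of_le' (by
    exact_mod_cast hχ ▸ two_le_chromaticNumber_of_adj huv)
  obtain ⟨m, rfl⟩ : ∃ m, n = m + 1 := by
    obtain ⟨G, hG⟩ := hn
    obtain ⟨f⟩ := h G hG G hG
    exact Nat.exists_eq_add_of_le' (Fin.pos (f u))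
  let Ω := (⊤ : SimpleGraph (Fin (m + 1))).edgeSet.toFinset
  let F := 𝒢.image fun G => G.edgeSet.toFinset
  let A := fun c : Fin (m + 1) → Fin (t + 1) => Ω.filter fun e => (e.map c).IsDiag
  have hF : F.card = 𝒢.card := card_image_of_injective _ fun G G' e =>
    edgeSet_injective (Set.toFinset_inj.1 e)
  have hΩ : ∀ x ∈ F, x ⊆ Ω := fun x hx => by
    obtain ⟨G, -, rfl⟩ := mem_image.1 hx
    exact Set.toFinset_subset_toFinset.2 (edgeSet_mono le_top)
  have hk : ∀ e ∈ Ω, (univ.filter fun c => e ∈ A c).card = (t + 1) ^ m := by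
    rintro ⟨a, b⟩ he
    have hab : a ≠ b := by simpa [Ω] using he
    refine Nat.eq_of_mul_eq_mul_right t.succ_pos ?_
    rw [← pow_succ, ← count hab]
    congr 2
    ext c
    simp only [A, mem_filter, mem_univ, true_and]
    exact ⟨fun h => by simpa using h.2, fun h => ⟨he, by simpa using h⟩⟩
  have hs := H28.Shearer.shearer univ A _ Ω hΩ (fun e he => (hk e he).ge) (hn.image _)
  have h1 : ∀ c, 2 * (F.image (· ∩ A c)).card ≤ 2 ^ (A c).card := fun c => by
    refine half _ _ ∅ (fun x hx => ?_) (fun x hx y hy => ?_) (by simp)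
    · obtain ⟨y, -, rfl⟩ := mem_image.1 hx
      exact inter_subset_right
    obtain ⟨x', hx', rfl⟩ := mem_image.1 hx
    obtain ⟨y', hy', rfl⟩ := mem_image.1 hy
    obtain ⟨G, hG, rfl⟩ := mem_image.1 hx'
    obtain ⟨G', hG', rfl⟩ := mem_image.1 hy'
    obtain ⟨f⟩ := h G hG G' hG'
    by_contra hc
    have : H.Colorable (t + 1) := ⟨Coloring.mk (fun w => c (f w)) fun {a b} hab e => by
      have := f.toHom.map_adj hab
      refine hc ⟨s(f a, f b), ?_⟩
      simp [A, Ω, e, (show G.Adj (f a) (f b) from this.1), (show G'.Adj (f a) (f b) from this.2),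
        (show f a ≠ f b from this.ne)]⟩
    have := hχ ▸ this.chromaticNumber_le
    norm_cast at this
    omega
  have h0 : 2 * (F.image (· ∩ A 0)).card < 2 ^ (A 0).card := by
    have e1 : A 0 = Ω := filter_true_of_mem (by rintro ⟨a, b⟩ -; simp)
    rw [e1, (image_congr (g := id) fun x hx => inter_eq_left.2 (hΩ x hx) :
      F.image (· ∩ Ω) = _), image_id]
    refine strict _ _ hΩ (fun x hx y hy => ?_) (hn.image _)
    obtain ⟨G, hG, rfl⟩ := mem_image.1 hx
    obtain ⟨G', hG', rfl⟩ := mem_image.1 hy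
    obtain ⟨f⟩ := h G hG G' hG'
    rw [← Set.toFinset_inter, ← Set.ncard_eq_toFinset_card', ← edgeSet_inf]
    exact h2.trans (Set.ncard_le_ncard_of_injOn (Sym2.map f)
      (fun e he => f.toHom.map_mem_edgeSet he) (Sym2.map.injective f.injective).injOn)
  have h3 := prod_lt_prod (s := univ) (fun c _ => by
    have := card_pos.2 ((hn.image fun G => G.edgeSet.toFinset).image (· ∩ A c))
    exact Nat.mul_pos two_pos this) (fun c _ => h1 c) ⟨0, mem_univ _, h0⟩
  have h4 : ∑ c, (A c).card = (m + 1).choose 2 * (t + 1) ^ m := by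
    have hN : Ω.card = (m + 1).choose 2 := by
      have := card_edgeFinset_top_eq_card_choose_two (V := Fin (m + 1))
      rw [Fintype.card_fin, edgeFinset_card] at this
      rw [← this, Set.toFinset_card]
    rw [← hN]
    have := sum_card_bipartiteAbove_eq_sum_card_bipartiteBelow (s := univ) (t := Ω)
      (r := fun c e => (Sym2.map c e).IsDiag (α := Fin (t + 1)))
    refine this.trans ((sum_congr rfl fun e he => ?_).trans (sum_const_nat fun _ _ => rfl))
    rw [← hk e he]
    simp [A, bipartiteBelow, he]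
  rw [prod_mul_distrib, prod_const, prod_pow_eq_pow_sum, h4, pow_mul, card_univ,
    Fintype.card_fun, Fintype.card_fin, Fintype.card_fin, pow_succ', pow_mul] at h3
  have h5 := lt_of_pow_lt_pow_left' _
    ((mul_pow _ _ _).trans_lt ((Nat.mul_le_mul_left _ hs).trans_lt h3))
  rw [zpow_sub₀ two_ne_zero, lt_div_iff₀ (zpow_pos two_pos _), mul_comm, ← hF,
    show ((t + 2 : ℕ) : ℤ) - 1 = (t + 1 : ℕ) by push_cast; ring]
  exact_mod_cast h5

end Pool.Agent.Results.MP_cf191d_co.Strict
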